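import Pool.Agent.Lib_helper82.CN.Defs

set_option autoImplicit false

namespace Pool.Agent.CN

open NumberField IsDedekindDomain

section

variable {K : Type} [Field K] [NumberField K] {ω : 𝓞 K} {t n : ℤ}

theorem nb_uq (h : QB K ω t n) {a b c d : ℤ}
    (e : (a : 𝓞 K) + (b : 𝓞 K) * ω = (c : 𝓞 K) + (d : 𝓞 K) * ω) : a = c ∧ b = d := by
  have h1 := h.uq (a - c) (b - d) (by
    push_cast
    linear_combination e)
  exact ⟨by linarith [h1.1], by linarith [h1.2]⟩

theorem nb_fun (h : QB K ω t n) {R : Type} [CommRing R] (r : R)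
    (hr : r ^ 2 - (t : R) * r + (n : R) = 0) :
    ∃ φ : 𝓞 K →+* R, φ ω = r := by
  choose a b hab using h.ex
  have key : ∀ (x : 𝓞 K) (c d : ℤ), x = (c : 𝓞 K) + (d : 𝓞 K) * ω → a x = c ∧ b x = d :=
    fun x c d hx => nb_uq h (by rw [← hab x, ← hx])
  refine ⟨{ toFun := fun x => (a x : R) + (b x : R) * r
            map_one' := ?_
            map_mul' := ?_
            map_zero' := ?_
            map_add' := ?_ }, ?_⟩
  · obtain ⟨h1, h2⟩ := key 1 1 0 (by push_cast; ring)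
    rw [h1, h2]
    push_cast
    ring
  · intro x y
    obtain ⟨h1, h2⟩ := key (x * y) (a x * a y - b x * b y * n) (a x * b y + b x * a y + b x * b y * t)
      (by
        have e1 := hab x
        have e2 := hab y
        have e3 := h.sq
        push_cast
        calc x * y = ((a x : 𝓞 K) + (b x : 𝓞 K) * ω) * ((a y : 𝓞 K) + (b y : 𝓞 K) * ω) := by
              rw [← e1, ← e2]
          _ = _ := by linear_combination ((b x : 𝓞 K) * (b y : 𝓞 K)) * e3)
    show ((a (x * y) : ℤ) : R) + ((b (x * y) : ℤ) : R) * r =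
      ((a x : R) + (b x : R) * r) * ((a y : R) + (b y : R) * r)
    rw [h1, h2]
    push_cast
    linear_combination (-((b x : R) * (b y : R))) * hr
  · obtain ⟨h1, h2⟩ := key 0 0 0 (by push_cast; ring)
    rw [h1, h2]
    push_cast
    ring
  · intro x y
    obtain ⟨h1, h2⟩ := key (x + y) (a x + a y) (b x + b y) (by
        have e1 := hab x
        have e2 := hab y
        push_cast
        calc x + y = ((a x : 𝓞 K) + (b x : 𝓞 K) * ω) + ((a y : 𝓞 K) + (b y : 𝓞 K) * ω) := by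
              rw [← e1, ← e2]
          _ = _ := by ring)
    show ((a (x + y) : ℤ) : R) + ((b (x + y) : ℤ) : R) * r =
      ((a x : R) + (b x : R) * r) + ((a y : R) + (b y : R) * r)
    rw [h1, h2]
    push_cast
    ring
  · obtain ⟨h1, h2⟩ := key ω 0 1 (by push_cast; ring)
    show ((a ω : ℤ) : R) + ((b ω : ℤ) : R) * r = r
    rw [h1, h2]
    push_cast
    ring

theorem nb_ext (h : QB K ω t n) {R : Type} [CommRing R] (φ ψ : 𝓞 K →+* R) (e : φ ω = ψ ω) :
    φ = ψ := by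
  ext x
  obtain ⟨a, b, rfl⟩ := h.ex x
  rw [map_add, map_add, map_mul, map_mul, map_intCast, map_intCast, map_intCast, map_intCast, e]

theorem nb_root (h : QB K ω t n) {R : Type} [CommRing R] (φ : 𝓞 K →+* R) :
    (φ ω) ^ 2 - (t : R) * φ ω + (n : R) = 0 := by
  have h1 := congrArg φ h.sq
  rw [map_pow, map_sub, map_mul, map_intCast, map_intCast] at h1
  rw [h1]
  ring

theorem nb_surj {p : ℕ} [Fact p.Prime] (φ : 𝓞 K →+* ZMod p) : Function.Surjective φ := by
  intro y
  refine ⟨((y.val : ℕ) : 𝓞 K), ?_⟩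
  rw [map_natCast, ZMod.natCast_zmod_val]

theorem nb_norm {p : ℕ} [Fact p.Prime] (φ : 𝓞 K →+* ZMod p) :
    Ideal.absNorm (RingHom.ker φ) = p := by
  have e := RingHom.quotientKerEquivOfSurjective (nb_surj φ)
  rw [Ideal.absNorm_apply, Submodule.cardQuot_apply, Nat.card_congr e.toEquiv, Nat.card_zmod]

theorem nb_ne_bot {p : ℕ} [hp : Fact p.Prime] (φ : 𝓞 K →+* ZMod p) : RingHom.ker φ ≠ ⊥ := by
  intro h
  have h1 : ((p : ℕ) : 𝓞 K) ∈ RingHom.ker φ := by
    rw [RingHom.mem_ker, map_natCast, ZMod.natCast_self]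
  rw [h, Ideal.mem_bot] at h1
  have h2 : (p : ℕ) = 0 := by exact_mod_cast h1
  exact hp.out.ne_zero h2

/-- block NB: prime ideals of norm `p` -/
theorem qb_count {K : Type} [Field K] [NumberField K] {ω : 𝓞 K} {t n : ℤ} (h : QB K ω t n)
    {p : ℕ} (hp : p.Prime) :
    Nat.card {v : HeightOneSpectrum (𝓞 K) // Ideal.absNorm v.asIdeal = p} = rt t n p := by
  have : Fact p.Prime := ⟨hp⟩
  unfold rt
  choose F hF using fun r : {x : ZMod p // x ^ 2 - (t : ZMod p) * x + (n : ZMod p) = 0} =>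
    nb_fun h r.1 r.2
  refine (Nat.card_congr (Equiv.ofBijective (fun r => ⟨⟨RingHom.ker (F r),
    RingHom.ker_isPrime (F r), nb_ne_bot (F r)⟩, nb_norm (F r)⟩) ⟨?_, ?_⟩)).symm
  · intro r s hrs
    have h1 : RingHom.ker (F r) = RingHom.ker (F s) := congrArg (fun v => v.1.asIdeal) hrs
    have h2 : ω - ((r.1.val : ℕ) : 𝓞 K) ∈ RingHom.ker (F r) := by
      rw [RingHom.mem_ker, map_sub, hF r, map_natCast, ZMod.natCast_zmod_val, sub_self]
    rw [h1, RingHom.mem_ker, map_sub, hF s, map_natCast, ZMod.natCast_zmod_val, sub_eq_zero] at h2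
    exact Subtype.ext h2.symm
  · rintro ⟨v, hv⟩
    have hcard : Nat.card (𝓞 K ⧸ v.asIdeal) = p := by
      rw [← hv, Ideal.absNorm_apply, Submodule.cardQuot_apply]
    have hfin : Finite (𝓞 K ⧸ v.asIdeal) := Nat.finite_of_card_ne_zero (by rw [hcard]; exact hp.ne_zero)
    have : Fintype (𝓞 K ⧸ v.asIdeal) := Fintype.ofFinite _
    let e := ZMod.ringEquivOfPrime (𝓞 K ⧸ v.asIdeal) hp (by rw [← Nat.card_eq_fintype_card, hcard])
    let ψ : 𝓞 K →+* ZMod p := (e.symm : (𝓞 K ⧸ v.asIdeal) →+* ZMod p).comp (Ideal.Quotient.mk v.asIdeal)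
    have hker : RingHom.ker ψ = v.asIdeal := by
      ext x
      rw [RingHom.mem_ker]
      show e.symm (Ideal.Quotient.mk v.asIdeal x) = 0 ↔ _
      rw [map_eq_zero_iff _ e.symm.injective, Ideal.Quotient.eq_zero_iff_mem]
    refine ⟨⟨ψ ω, nb_root h ψ⟩, ?_⟩
    have h1 : F ⟨ψ ω, nb_root h ψ⟩ = ψ := nb_ext h _ _ (hF _)
    apply Subtype.ext
    apply HeightOneSpectrum.ext
    show RingHom.ker (F ⟨ψ ω, nb_root h ψ⟩) = v.asIdeal
    rw [h1, hker]

end

end Pool.Agent.CN
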